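import Pool.Agent.Work.MP_462f25_al.Dynamics

/-!
# Convergence actions of hyperbolic groups are cocompact off a copy of the boundary

Let `Γ` be a word-hyperbolic group acting as a convergence group on a compact metrizable space `X`
and let `L ⊆ X` be a compact invariant set that is equivariantly homeomorphic to the Gromov boundary
of `Γ`. Then `Γ` acts cocompactly on `X \ L`: there is a compact `K ⊆ X \ L` all of whose translates
cover `X \ L`.

Idea: if the whole orbit of `x ∈ X \ L` stays close to `L`, then nearby points `q g ∈ L` of `g • x`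
form a pseudo-orbit in the boundary. Following the elements that expand the boundary near the
pseudo-orbit gives pairwise distinct `γ n` and a point `l` of the boundary such that the balls of a
fixed size around `q (γ n)`, pulled back by `γ n`, shrink to `l`. The convergence property of the
action on `X` contradicts this.
-/

open Filter Topology
open Pool.Agent.Work.MP_462f25_al

namespace Pool.Agent.Results.MP_462f25_al.Cocompact

universe u v

theorem result {Γ : Type u} [Group Γ] (S : FinGenSet Γ) (hS : IsHyperbolic S)
    {X : Type v} [TopologicalSpace X] [CompactSpace X] [TopologicalSpace.MetrizableSpace X]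
    [MulAction Γ X] [ContinuousConstSMul Γ X] (hX : IsConvergenceAction Γ X)
    (L : Set X) (hL : IsCompact L) (hinv : ∀ γ : Γ, ∀ x ∈ L, γ • x ∈ L)
    (φ : Boundary S ≃ₜ L)
    (hφ : ∀ (γ : Γ) (ξ : Boundary S), ((φ (γ • ξ) : L) : X) = γ • ((φ ξ : L) : X)) :
    ∃ K : Set X, IsCompact K ∧ K ⊆ Lᶜ ∧ ∀ x ∈ Lᶜ, ∃ γ : Γ, γ • x ∈ K := by
  let _ : MetricSpace X := TopologicalSpace.metrizableSpaceMetric X
  obtain ⟨δ, H⟩ := hS.exists_hypIneq
  rcases L.eq_empty_or_nonempty with rfl | ⟨p, hp⟩
  · exact ⟨Set.univ, isCompact_univ, by simp, fun x _ => ⟨1, trivial⟩⟩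
  -- the boundary is nonempty, hence has at least two points
  have : Infinite Γ := infinite_of_boundary (φ.symm ⟨p, hp⟩)
  obtain ⟨η, hη⟩ := exists_ne H (φ.symm ⟨p, hp⟩)
  have hq : (φ η : X) ∈ L := (φ η).2
  have hpq : p ≠ (φ η : X) := by
    intro h
    apply hη
    rw [Homeomorph.eq_symm_apply]
    exact Subtype.ext h.symm
  by_cases h2 : L = {p, (φ η : X)}
  · rw [h2]
    exact two_point_case S hX hpq (by rw [← h2]; exact hinv)
  · have h3 : ∃ r ∈ L, r ≠ p ∧ r ≠ (φ η : X) := by
      by_contra hcon
      push Not at hcon
      apply h2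
      ext x
      constructor
      · intro hx
        by_cases hxp : x = p
        · simp [hxp]
        · simp [hcon x hx hxp]
      · rintro (rfl | hx)
        · exact hp
        · rw [Set.mem_singleton_iff] at hx
          rw [hx]
          exact hq
    obtain ⟨r, hr, hrp, hrq⟩ := h3
    refine three_point_case H hX L hL ⟨p, hp⟩ hinv φ hφ fun a b => ?_
    by_cases ha : p = a
    · subst ha
      by_cases hb : r = b
      · exact ⟨_, hq, hpq.symm, fun h => hrq (hb.trans h.symm)⟩
      · exact ⟨r, hr, hrp, hb⟩
    · by_cases hb : p = b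
      · subst hb
        by_cases hc : r = a
        · exact ⟨_, hq, fun h => hrq (hc.trans h.symm), hpq.symm⟩
        · exact ⟨r, hr, hc, hrp⟩
      · exact ⟨p, hp, ha, hb⟩

end Pool.Agent.Results.MP_462f25_al.Cocompact
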